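import Pool.Agent.R130.UltraExp

/-!
# MP_d3b762_co, Q1: `E₁(p,p) ≠ E₂(p,p)` for every nonprincipal ultrafilter `p`
-/

set_option autoImplicit false

namespace Pool.Agent.Results.MP_d3b762_co.DiagonalDiffer

open Pool.Agent.R130.UltraExp

/-- **There is no nonprincipal ultrafilter `p` on the positive integers with
`E₁(p,p) = E₂(p,p)`.** -/
theorem result : ¬ ∃ p : Ultrafilter ℕ+, Nonprincipal p ∧ E₁ p p = E₂ p p := by
  rintro ⟨p, hp, h⟩
  exact E₁_ne_E₂ p p hp h

end Pool.Agent.Results.MP_d3b762_co.DiagonalDiffer
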